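import Pool.Agent.Helper9.MTK.IndK
import Pool.Agent.Helper94.SUBW.SLW
import Pool.Agent.Helper9.SUBK.GALA

/-!
Project T3K: comparison of heights, absolute values and denominators.
-/

set_option autoImplicit false

namespace Pool.Agent.Helper9.MTK

open Finset Filter Polynomial Pool.Agent.Helper70.SUB Pool.Agent.Helper77.SUBK
  Pool.Agent.Helper70.SUBW Height
open Pool.Agent.Helper94.SUBW (SP SP_nv SP_mono)

section

variable {K : Type} [Field K] [NumberField K]

theorem fin_le_one (v : NumberField.FinitePlace K) {a : K} (ha : IsIntegral ℤ a) : v a ≤ 1 := by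
  obtain ⟨b, hb⟩ : ∃ b : NumberField.RingOfIntegers K, (b : K) = a := ⟨⟨a, ha⟩, rfl⟩
  rw [← NumberField.FinitePlace.norm_embedding_eq, ← hb]
  exact NumberField.FinitePlace.norm_le_one K _ b

theorem emb_le_height (f : K →+* ℂ) (a : K) : ‖f a‖ ≤ mulHeight₁ a := by
  classical
  rw [NumberField.mulHeight₁_eq]
  obtain ⟨w, hw⟩ : ∃ w : NumberField.InfinitePlace K, w = NumberField.InfinitePlace.mk f :=
    ⟨_, rfl⟩
  have h1 : ‖f a‖ = w a := by
    rw [hw]
    rfl
  rw [h1]
  have h2 : (1 : ℝ) ≤ ∏ᶠ v : NumberField.FinitePlace K, max (v a) 1 :=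
    one_le_finprod fun v => le_max_right _ _
  have h3 : w a ≤ ∏ v : NumberField.InfinitePlace K, max (v a) 1 ^ v.mult := by
    rw [← Finset.mul_prod_erase Finset.univ _ (Finset.mem_univ w)]
    have h4 : (1 : ℝ) ≤ ∏ v ∈ Finset.univ.erase w, max (v a) 1 ^ v.mult := by
      calc (1 : ℝ) = ∏ _v ∈ Finset.univ.erase w, (1 : ℝ) := Finset.prod_const_one.symm
        _ ≤ _ := Finset.prod_le_prod (fun _ _ => zero_le_one) fun v _ =>
          one_le_pow₀ (le_max_right _ _)
    have h5 : w a ≤ max (w a) 1 ^ w.mult :=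
      (le_max_left _ _).trans (le_self_pow₀ (le_max_right _ _) NumberField.InfinitePlace.mult_ne_zero)
    have h6 : 0 ≤ w a := apply_nonneg w a
    nlinarith
  have h6 : 0 ≤ w a := apply_nonneg w a
  nlinarith

/-- upper bound for the height of an algebraic integer -/
theorem hub_int {a : K} (ha : IsIntegral ℤ a) {B : ℝ} (hB : 1 ≤ B)
    (h : ∀ f : K →+* ℂ, ‖f a‖ ≤ B) : mulHeight₁ a ≤ B ^ Module.finrank ℚ K := by
  rw [NumberField.mulHeight₁_eq]
  have h1 : ∏ᶠ v : NumberField.FinitePlace K, max (v a) 1 = 1 :=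
    finprod_eq_one_of_forall_eq_one fun v => max_eq_right (fin_le_one v ha)
  rw [h1, mul_one, ← NumberField.InfinitePlace.sum_mult_eq, ← Finset.prod_pow_eq_pow_sum]
  refine Finset.prod_le_prod (fun v _ => by positivity) fun v _ => ?_
  refine pow_le_pow_left₀ (by positivity) (max_le ?_ hB) _
  rw [← NumberField.InfinitePlace.norm_embedding_eq]
  exact h _

/-- upper bound for the height -/
theorem hub {a : K} {n : ℕ} (hn : n ≠ 0) (ha : IsIntegral ℤ ((n : K) * a)) {B : ℝ} (hB : 1 ≤ B)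
    (h : ∀ f : K →+* ℂ, ‖f a‖ ≤ B) :
    mulHeight₁ a ≤ (n * B) ^ Module.finrank ℚ K * (n : ℝ) ^ Module.finrank ℚ K := by
  have hn0 : (n : K) ≠ 0 := by exact_mod_cast hn
  have hn1 : (1 : ℝ) ≤ n := by exact_mod_cast Nat.one_le_iff_ne_zero.2 hn
  have h1 : a = ((n : K) * a) * (n : K)⁻¹ := by
    field_simp
  have h2 : mulHeight₁ a ≤ mulHeight₁ ((n : K) * a) * mulHeight₁ (n : K) := by
    calc mulHeight₁ a = mulHeight₁ (((n : K) * a) * (n : K)⁻¹) := by rw [← h1]
      _ ≤ mulHeight₁ ((n : K) * a) * mulHeight₁ ((n : K)⁻¹) := mulHeight₁_mul_le _ _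
      _ = _ := by rw [mulHeight₁_inv]
  refine h2.trans (mul_le_mul ?_ ?_ (mulHeight₁_nonneg _) (by positivity))
  · refine hub_int ha (by nlinarith) fun f => ?_
    rw [map_mul, map_natCast, norm_mul, Complex.norm_natCast]
    exact mul_le_mul_of_nonneg_left (h f) (by positivity)
  · refine hub_int (isIntegral_natCast n) hn1 fun f => ?_
    rw [map_natCast, Complex.norm_natCast]

end

section

variable {M : Type} [Field M] [NumberField M] {S : Finset ℕ} {P : PF S M}

/-- the height bounds the denominator and all the archimedean absolute values -/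
theorem sp_height (z : M) : SP P (mulHeight₁ z) z := by
  obtain ⟨n, hn, hn1, hn2⟩ := NumberField.exists_nat_le_mulHeight₁ z
  refine ⟨n, hn, hn1, hn2, fun σ => ?_⟩
  rw [P.inf]
  exact emb_le_height (P.emb.comp (σ : M →+* M)) z

end

theorem st_HBM : ST_HBM := by
  intro M _ _ _ S P hS z v hv σ
  exact SP_nv hS (sp_height z) hv σ

theorem st_HSL : ST_HSL := by
  intro M _ _ _ S P φ X hS hX z
  constructor
  · intro h ε hε
    obtain ⟨d, hd⟩ : ∃ d : ℕ, d = Module.finrank ℚ M := ⟨_, rfl⟩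
    have hG := Pool.Agent.Helper9.SUBK.st_GALA M S P hS
    have h1 := h (ε / (3 * (d + 1))) (by positivity)
    filter_upwards [h1, hX.eventually_ge_atTop 1] with j h2 h3
    obtain ⟨D, hD0, hD, hi, hσ⟩ := h2
    obtain ⟨Y, hY⟩ : ∃ Y : ℝ, Y = X j ^ (ε / (3 * (d + 1))) := ⟨_, rfl⟩
    rw [← hY] at hD hσ
    have hY1 : 1 ≤ Y := by
      rw [hY]
      exact Real.one_le_rpow h3 (by positivity)
    have h4 := hub hD0 hi hY1 (fun f => by
      obtain ⟨σ, hσ'⟩ := hG.1 f
      rw [hσ']
      exact hσ σ)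
    refine h4.trans ?_
    rw [← hd]
    have hD1 : (0 : ℝ) ≤ D := by positivity
    calc ((D : ℝ) * Y) ^ d * (D : ℝ) ^ d ≤ (Y * Y) ^ d * Y ^ d := by
          gcongr
      _ = Y ^ (3 * d) := by ring
      _ ≤ Y ^ (3 * (d + 1)) := pow_le_pow_right₀ hY1 (by omega)
      _ = X j ^ ε := by
          rw [hY, ← Real.rpow_natCast, ← Real.rpow_mul (by linarith)]
          congr 1
          push_cast
          field_simp
  · intro h ε hε
    filter_upwards [h ε hε] with j hj
    exact SP_mono hj (sp_height (P := P) (z j))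

/-- one half of the comparison -/
theorem hc_aux {K M : Type} [Field K] [NumberField K] [Field M] [NumberField M] {a : K} {b : M}
    (hint : ∀ n : ℕ, IsIntegral ℤ ((n : M) * b) → IsIntegral ℤ ((n : K) * a))
    (hemb : ∀ f : K →+* ℂ, ∃ g : M →+* ℂ, f a = g b) :
    mulHeight₁ a ≤ mulHeight₁ b ^ (3 * Module.finrank ℚ K) := by
  obtain ⟨n, hn, hn1, hn2⟩ := NumberField.exists_nat_le_mulHeight₁ b
  have h1 : 1 ≤ mulHeight₁ b := one_le_mulHeight₁ b
  refine (hub hn (hint n hn2) h1 (fun f => ?_)).trans ?_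
  · obtain ⟨g, hg⟩ := hemb f
    rw [hg]
    exact emb_le_height g b
  · calc ((n : ℝ) * mulHeight₁ b) ^ Module.finrank ℚ K * (n : ℝ) ^ Module.finrank ℚ K
        ≤ (mulHeight₁ b * mulHeight₁ b) ^ Module.finrank ℚ K *
          mulHeight₁ b ^ Module.finrank ℚ K := by gcongr
      _ = mulHeight₁ b ^ (3 * Module.finrank ℚ K) := by ring

theorem st_HC : ST_HC := by
  intro K M _ _ _ _ f
  refine ⟨3 * Module.finrank ℚ M + 3 * Module.finrank ℚ K, ?_, fun a => ⟨?_, ?_⟩⟩
  · have : 0 < Module.finrank ℚ K := Module.finrank_pos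
    omega
  · refine (hc_aux (a := f a) (b := a) ?_ ?_).trans
      (pow_le_pow_right₀ (one_le_mulHeight₁ a) (by omega))
    · intro n hn
      have h1 : (n : M) * f a = f ((n : K) * a) := by simp
      rw [h1]
      exact hn.map f.toIntAlgHom
    · exact fun g => ⟨g.comp f, rfl⟩
  · refine (hc_aux (a := a) (b := f a) ?_ ?_).trans
      (pow_le_pow_right₀ (one_le_mulHeight₁ (f a)) (by omega))
    · intro n hn
      have h1 : (n : M) * f a = f ((n : K) * a) := by simp
      rw [h1] at hn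
      exact (isIntegral_algHom_iff f.toIntAlgHom f.injective).1 hn
    · intro g
      let _ : Algebra K M := f.toAlgebra
      let _ : Algebra K ℂ := g.toAlgebra
      have : IsScalarTower ℚ K M := IsScalarTower.of_algebraMap_eq' (Subsingleton.elim _ _)
      have : Algebra.IsAlgebraic K M := Algebra.IsAlgebraic.tower_top (K := ℚ) K
      obtain ⟨e⟩ : Nonempty (M →ₐ[K] ℂ) := ⟨IsAlgClosed.lift⟩
      refine ⟨e, ?_⟩
      exact (e.commutes a).symm

end Pool.Agent.Helper9.MTK
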