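import Pool.Agent.Helper9.MTK.Fin
import Pool.Agent.Helper9.MTK.Hgt
import Pool.Agent.Helper99.MTK.GEOL
import Pool.Agent.Helper73.MTK.GEO
import Pool.Agent.Helper8.SUBW.CSTW
import Pool.Agent.Helper26.SUBW.RELW
import Pool.Agent.Helper70.SUBW.SUBTU
import Pool.Agent.Helper77.SUBK.Asm

/-! Project T3K: assembly. -/

set_option autoImplicit false

namespace Pool.Agent.Helper9.MTK

open Pool.Agent.Helper70.SUB Pool.Agent.Helper77.SUBK Pool.Agent.Helper70.SUBW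

theorem w_slw : ST_SLW := Pool.Agent.Helper94.SUBW.SLW

theorem w_cst (hSUBTU : ST_SUBTU) : ST_CSTW := Pool.Agent.Helper8.SUBW.CSTW hSUBTU w_slw k_prk

theorem w_rel (hSUBTU : ST_SUBTU) : ST_RELW :=
  Pool.Agent.Helper26.SUBW.RELW (w_cst hSUBTU) w_slw

theorem indk_ (hSUBTU : ST_SUBTU) : ST_INDK :=
  st_INDK w_slw k_svb st_HSL st_HBM (w_rel hSUBTU)

theorem geol_ : ST_GEOL := Pool.Agent.Helper99.MTK.st_GEOL Pool.Agent.Helper73.MTK.st_GEO

theorem t3k_of (hSUBTU : ST_SUBTU) : ST_T3K :=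
  t3K w_slw k_svb k_pfx st_HSL st_HC (indk_ hSUBTU) geol_

theorem w_subtu : ST_SUBTU := Pool.Agent.Helper70.SUBW.SUBTU k_subt k_den a_av

/-- the result -/
theorem t3k_ : ST_T3K := t3k_of w_subtu

end Pool.Agent.Helper9.MTK
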