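import Pool.Agent.Helper9.MTK.Main

/-!
Project T3K: from the theorem along an ultrafilter to the final statement.
-/

set_option autoImplicit false

namespace Pool.Agent.Helper9.MTK

open Finset Filter Polynomial Pool.Agent.Helper70.SUB Pool.Agent.Helper77.SUBK
  Pool.Agent.Helper70.SUBW Height

/-- every number field embeds into a Galois one -/
theorem exists_gal (K : Type) [Field K] [NumberField K] :
    ∃ (M : Type) (_ : Field M) (_ : NumberField M) (_ : IsGalois ℚ M), Nonempty (K →+* M) := by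
  have i1 : Algebra.IsAlgebraic ℚ (AlgebraicClosure K) := Algebra.IsAlgebraic.trans ℚ K _
  have i2 : IsAlgClosure ℚ (AlgebraicClosure K) := ⟨inferInstance, inferInstance⟩
  have i3 : Normal ℚ (AlgebraicClosure K) := IsAlgClosure.normal ℚ _
  have i4 : Normal ℚ (IntermediateField.normalClosure ℚ K (AlgebraicClosure K)) :=
    normalClosure.normal _ _ _
  have i5 : FiniteDimensional ℚ (IntermediateField.normalClosure ℚ K (AlgebraicClosure K)) :=
    normalClosure.is_finiteDimensional ℚ K (AlgebraicClosure K)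
  refine ⟨IntermediateField.normalClosure ℚ K (AlgebraicClosure K), inferInstance,
    { to_finiteDimensional := i5 }, { to_normal := i4 }, ⟨?_⟩⟩
  exact algebraMap K (IntermediateField.normalClosure ℚ K (AlgebraicClosure K))

theorem log_h (K : Type) [Field K] [NumberField K] (h : K → ℝ) (hh : ∀ a : K, h a =
    ((∑ w : NumberField.InfinitePlace K, (w.mult : ℝ) * Real.log (max 1 (w a))) +
      ∑ᶠ v : NumberField.FinitePlace K, Real.log (max 1 (v a))) /
      (Module.finrank ℚ K : ℝ)) (a : K) :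
    Real.log (mulHeight₁ a) = h a * (Module.finrank ℚ K : ℝ) := by
  have hD : (0 : ℝ) < (Module.finrank ℚ K : ℝ) := by exact_mod_cast Module.finrank_pos
  have h1 := NumberField.logHeight₁_eq a
  rw [Height.logHeight₁_eq_log_mulHeight₁] at h1
  have hp : ∀ x : ℝ, 0 ≤ x → Real.posLog x = Real.log (max 1 x) := by
    intro x hx
    exact Real.posLog_eq_log_max_one hx
  rw [h1, hh, div_mul_cancel₀ _ hD.ne']
  congr 1
  · refine Finset.sum_congr rfl fun w _ => ?_
    rw [hp _ (apply_nonneg w a)]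
  · refine finsum_congr fun v => ?_
    rw [hp _ (apply_nonneg v a)]

theorem t3K (hSLW : ST_SLW) (hSVB : ST_SVB) (hPFX : ST_PFX) (hHSL : ST_HSL) (hHC : ST_HC)
    (hINDK : ST_INDK) (hGEOL : ST_GEOL) : ST_T3K := by
  intro K _ _ h hh Γ t d κ hΓ hd
  by_contra hcon
  push Not at hcon
  have hlog := log_h K h hh
  obtain ⟨D, hD⟩ : ∃ D : ℝ, D = (Module.finrank ℚ K : ℝ) := ⟨_, rfl⟩
  have hD0 : 0 < D := by
    rw [hD]
    exact_mod_cast Module.finrank_pos
  rw [← hD] at hlog
  have hh0 : ∀ a : K, 0 ≤ h a := by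
    intro a
    have h1 := Real.log_nonneg (one_le_mulHeight₁ a)
    rw [hlog] at h1
    exact nonneg_of_mul_nonneg_left h1 hD0
  obtain ⟨M, _, _, _, ⟨f⟩⟩ := exists_gal K
  obtain ⟨S, hS, hSΓ⟩ := (hSVB K).2.2.2.2.2.2.2.2.2.2.2 Γ hΓ
  have hSf : ∀ γ ∈ Γ, SV S (f (γ : K)) := fun γ hγ =>
    ((hSVB K).2.2.2.2.2.2.2.2.2.2.1 M f S _).2 (hSΓ γ hγ)
  obtain ⟨P⟩ := hPFX M S hS
  obtain ⟨A, hA1, hA⟩ := hHC K M f
  choose F hFd hFs x y hxy H hH hx hy hlt using fun n : ℕ => hcon ((n : ℝ) + 1) ((n : ℝ) + 1)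
    (by positivity) (by positivity)
  have hH0 : ∀ n, 0 ≤ H n := fun n => (hh0 _).trans (hH n 0)
  have hAr : (1 : ℝ) ≤ (A : ℝ) := by exact_mod_cast hA1
  obtain ⟨X, hXdef⟩ : ∃ X : ℕ → ℝ, X = fun n => mulHeight₁ (f (x n)) := ⟨_, rfl⟩
  have hX1 : ∀ n, 1 ≤ X n := fun n => by rw [hXdef]; exact one_le_mulHeight₁ _
  -- logarithms of heights in the two fields
  have hlogf : ∀ a : K, Real.log (mulHeight₁ (f a)) ≤ A * (h a * D) := by
    intro a
    rw [← hlog, ← Real.log_pow]
    exact Real.log_le_log (mulHeight₁_pos _) (hA a).1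
  have hlogf' : ∀ a : K, h a * D ≤ A * Real.log (mulHeight₁ (f a)) := by
    intro a
    rw [← hlog, ← Real.log_pow]
    exact Real.log_le_log (mulHeight₁_pos _) (hA a).2
  have hlX : ∀ n : ℕ, ((n : ℝ) + 1) * (H n + 1) * D ≤ A * Real.log (X n) := by
    intro n
    have h1 := hlogf' (x n)
    rw [hXdef]
    refine le_trans ?_ h1
    refine mul_le_mul_of_nonneg_right ?_ hD0.le
    have h2 := hlt n
    linarith
  have hle : ((hyperfilter ℕ : Ultrafilter ℕ) : Filter ℕ) ≤ atTop := by
    rw [← Nat.cofinite_eq_atTop]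
    exact hyperfilter_le_cofinite
  obtain ⟨φ, hφ⟩ : ∃ φ : Ultrafilter ℕ, φ = hyperfilter ℕ := ⟨_, rfl⟩
  rw [← hφ] at hle
  have hXt : Tendsto X (φ : Filter ℕ) atTop := by
    refine Tendsto.mono_left ?_ hle
    have h1 : ∀ n : ℕ, (D / A) * (n : ℝ) ≤ X n := by
      intro n
      have h2 := hlX n
      have h3 : Real.log (X n) ≤ X n := by
        have := Real.log_le_sub_one_of_pos (lt_of_lt_of_le one_pos (hX1 n))
        linarith
      have h4 : (n : ℝ) * D ≤ A * X n := by
        have h5 : (n : ℝ) * D ≤ ((n : ℝ) + 1) * (H n + 1) * D := by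
          refine mul_le_mul_of_nonneg_right ?_ hD0.le
          have h6 := hH0 n
          have h7 : (0 : ℝ) ≤ n := Nat.cast_nonneg n
          nlinarith
        have h6 : (A : ℝ) * Real.log (X n) ≤ A * X n :=
          mul_le_mul_of_nonneg_left h3 (by linarith)
        linarith
      rw [div_mul_eq_mul_div, div_le_iff₀ (by linarith)]
      linarith
    exact tendsto_atTop_mono h1
      (Tendsto.const_mul_atTop (by positivity) tendsto_natCast_atTop_atTop)
  obtain ⟨κ', hκ1, hκ2⟩ : ∃ κ' : ℝ, κ ≤ κ' ∧ 1 ≤ κ' := ⟨max κ 1, le_max_left _ _, le_max_right _ _⟩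
  have hslow : ∀ z : ℕ → K, (∀ n, h (z n) ≤ κ' * (H n + 1)) →
      Slw P φ X (fun n => f (z n)) := by
    intro z hz
    rw [hHSL M S P φ X hS hXt]
    intro ε hε
    refine hle ?_
    filter_upwards [Filter.eventually_ge_atTop ⌈κ' * A * A / ε⌉₊] with n hn
    have hn' : κ' * A * A / ε ≤ (n : ℝ) + 1 := by
      have h1 := Nat.le_ceil (κ' * A * A / ε)
      have h2 : ((⌈κ' * A * A / ε⌉₊ : ℕ) : ℝ) ≤ n := by exact_mod_cast hn
      linarith
    rw [div_le_iff₀ hε] at hn'
    have hlX0 : 0 ≤ Real.log (X n) := Real.log_nonneg (hX1 n)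
    have h1 : Real.log (mulHeight₁ (f (z n))) ≤ ε * Real.log (X n) := by
      have h2 : Real.log (mulHeight₁ (f (z n))) ≤ A * (κ' * (H n + 1) * D) := by
        refine (hlogf (z n)).trans (mul_le_mul_of_nonneg_left ?_ (by linarith))
        exact mul_le_mul_of_nonneg_right (hz n) hD0.le
      have h3 := hlX n
      have h4 : ((n : ℝ) + 1) * Real.log (mulHeight₁ (f (z n))) ≤
          ((n : ℝ) + 1) * (ε * Real.log (X n)) := by
        calc ((n : ℝ) + 1) * Real.log (mulHeight₁ (f (z n)))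
            ≤ ((n : ℝ) + 1) * (A * (κ' * (H n + 1) * D)) :=
              mul_le_mul_of_nonneg_left h2 (by positivity)
          _ = A * κ' * (((n : ℝ) + 1) * (H n + 1) * D) := by ring
          _ ≤ A * κ' * (A * Real.log (X n)) :=
              mul_le_mul_of_nonneg_left h3 (mul_nonneg (by linarith) (by linarith))
          _ = (κ' * A * A) * Real.log (X n) := by ring
          _ ≤ (((n : ℝ) + 1) * ε) * Real.log (X n) := mul_le_mul_of_nonneg_right hn' hlX0
          _ = ((n : ℝ) + 1) * (ε * Real.log (X n)) := by ring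
      exact le_of_mul_le_mul_left h4 (by positivity)
    have h5 : 0 < X n := lt_of_lt_of_le one_pos (hX1 n)
    rw [Real.rpow_def_of_pos h5]
    calc mulHeight₁ (f (z n)) = Real.exp (Real.log (mulHeight₁ (f (z n)))) :=
          (Real.exp_log (mulHeight₁_pos _)).symm
      _ ≤ Real.exp (Real.log (X n) * ε) := Real.exp_le_exp.2 (by linarith)
  have hspa : ∀ z : ℕ → K, (∀ n, Sp h Γ t (κ * (H n + 1)) (z n)) →
      Spa P φ X (fun n => f (z n)) := by
    intro z hz
    choose c γ hc hγ hz using hz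
    refine ⟨t, fun i n => f (c n i), fun i n => f (γ n i : K), fun i => ?_, fun i => ?_, ?_⟩
    · refine hslow _ fun n => (hc n i).trans ?_
      exact mul_le_mul_of_nonneg_right hκ1 (by linarith [hH0 n])
    · exact Filter.Eventually.of_forall fun n => hSf _ (hγ n i)
    · refine Filter.Eventually.of_forall fun n => ?_
      beta_reduce
      rw [hz n, map_sum]
      exact Finset.sum_congr rfl fun i _ => by rw [map_mul]
  choose a b hb0 ha hb hxab using hx
  choose n' t' ht0 hn ht hynt using hy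
  have hmain := mainK (P := P) (φ := φ) hSLW hSVB hINDK hGEOL hS hXt d hd (fun n => (F n).map f)
    (fun n => f (a n)) (fun n => f (b n)) (fun n => f (n' n)) (fun n => f (t' n))
    (Filter.Eventually.of_forall fun n => by rw [natDegree_map, hFd])
    (Filter.Eventually.of_forall fun n => (hFs n).map)
    (fun i => by
      simp only [coeff_map]
      refine hslow _ fun n => (hH n i).trans ?_
      have := hH0 n
      nlinarith)
    (hspa a ha) (hspa b hb) (hspa n' hn) (hspa t' ht)
    (Filter.Eventually.of_forall fun n => (map_ne_zero f).2 (hb0 n))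
    (Filter.Eventually.of_forall fun n => (map_ne_zero f).2 (ht0 n))
    (Filter.Eventually.of_forall fun n => by
      rw [← map_div₀, ← map_div₀, ← hxab, ← hynt, ← map_pow, hxy, eval_map, eval₂_at_apply])
  have h1 := (hHSL M S P φ X hS hXt _).1 hmain (1 / 2) (by norm_num)
  obtain ⟨j, hj1, hj2⟩ := (h1.and (hXt.eventually_gt_atTop 1)).exists
  have h2 : X j ^ (1 / 2 : ℝ) < X j ^ (1 : ℝ) := Real.rpow_lt_rpow_of_exponent_lt hj2 (by norm_num)
  rw [Real.rpow_one] at h2
  have h3 : mulHeight₁ (f (a j) / f (b j)) = X j := by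
    rw [← map_div₀, ← hxab, hXdef]
  rw [h3] at hj1
  linarith

end Pool.Agent.Helper9.MTK
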