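import Pool.Agent.Helper9.MTK.Sheet

/-!
Project T3K: moving targets without a bound for the size of the S-units.
-/

set_option autoImplicit false

namespace Pool.Agent.Helper9.MTK

open Finset Filter Polynomial Pool.Agent.Helper70.SUB Pool.Agent.Helper77.SUBK
  Pool.Agent.Helper70.SUBW Height

/-- (HBM) the absolute values are bounded by the height -/
def ST_HBM : Prop := ∀ (M : Type) [Field M] [NumberField M] [IsGalois ℚ M] (S : Finset ℕ)
  (P : PF S M), (∀ p ∈ S, p.Prime) → ∀ z : M, HB P (mulHeight₁ z) z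

section

variable {M : Type} [Field M] [NumberField M] [IsGalois ℚ M] {S : Finset ℕ} {P : PF S M}
  {φ : Ultrafilter ℕ}

/-- the height along the ultrafilter is not slow with respect to itself -/
theorem not_slw_self (hHSL : ST_HSL) (hS : ∀ p ∈ S, p.Prime) {X : ℕ → ℝ} {z : ℕ → M}
    (hX : Tendsto X (φ : Filter ℕ) atTop) (hz : ∀ᶠ j in (φ : Filter ℕ), X j ≤ mulHeight₁ (z j)) :
    ¬ Slw P φ X z := by
  intro h
  have h1 := (hHSL M S P φ X hS hX z).1 h (1 / 2) (by norm_num)
  obtain ⟨j, ⟨hj1, hj2⟩, hj3⟩ := ((h1.and hz).and (hX.eventually_gt_atTop 1)).exists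
  have h2 : X j ^ (1 / 2 : ℝ) < X j ^ (1 : ℝ) := Real.rpow_lt_rpow_of_exponent_lt hj3 (by norm_num)
  rw [Real.rpow_one] at h2
  linarith

theorem not_slw (hHSL : ST_HSL) (hS : ∀ p ∈ S, p.Prime) {X : ℕ → ℝ} {z : ℕ → M}
    (hX : Tendsto X (φ : Filter ℕ) atTop) (h : ¬ Slw P φ X z) :
    ∃ ε : ℝ, 0 < ε ∧ ∀ᶠ j in (φ : Filter ℕ), X j ^ ε < mulHeight₁ (z j) := by
  rw [hHSL M S P φ X hS hX z] at h
  push Not at h
  obtain ⟨ε, hε, h⟩ := h
  exact ⟨ε, hε, h⟩

theorem indK_aux (hSLW : ST_SLW) (hSVB : ST_SVB) (hHSL : ST_HSL) (hHBM : ST_HBM)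
    (hRELW : ST_RELW) (hS : ∀ p ∈ S, p.Prime) {X : ℕ → ℝ}
    (hX : Tendsto X (φ : Filter ℕ) atTop) :
    ∀ (N : ℕ) (T : Type) [Fintype T] [DecidableEq T] (c u : T → ℕ → M), Fintype.card T = N →
      Nonempty T → (∀ i, Slw P φ X (c i)) → (∀ i, ∀ᶠ j in (φ : Filter ℕ), c i j ≠ 0) →
      (∀ i, ∀ᶠ j in (φ : Filter ℕ), SV S (u i j)) →
      (∀ i i', i ≠ i' → ¬ Slw P φ X (fun j => u i j / u i' j)) →
      ∀ᶠ j in (φ : Filter ℕ), ∑ i, c i j * u i j ≠ 0 := by
  classical
  intro N
  induction N using Nat.strong_induction_on with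
  | _ N ih =>
  intro T _ _ c u hN hT hc hc0 hu hrat
  obtain ⟨-, -, -, -, -, svm, svi, -⟩ := hSVB M
  have hc0' : ∀ᶠ j in (φ : Filter ℕ), ∀ i, c i j ≠ 0 := Filter.eventually_all.2 hc0
  have hu' : ∀ᶠ j in (φ : Filter ℕ), ∀ i, SV S (u i j) := Filter.eventually_all.2 hu
  have hune : ∀ᶠ j in (φ : Filter ℕ), ∀ i, u i j ≠ 0 := hu'.mono fun j hj i => (hj i).1
  rcases subsingleton_or_nontrivial T with hsub | hnt
  · obtain ⟨i⟩ := hT
    filter_upwards [hc0', hune] with j h1 h2
    have h0 : (Finset.univ : Finset T) = {i} := by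
      ext i'
      simp [Subsingleton.elim i' i]
    rw [h0, Finset.sum_singleton]
    exact mul_ne_zero (h1 i) (h2 i)
  by_contra hcon
  rw [← Ultrafilter.eventually_not] at hcon
  simp only [not_not] at hcon
  -- the new scale
  have hmax : ∀ᶠ j in (φ : Filter ℕ), ∃ p0 : T × T, ∀ p : T × T,
      mulHeight₁ (u p.1 j / u p.2 j) ≤ mulHeight₁ (u p0.1 j / u p0.2 j) := by
    refine Filter.Eventually.of_forall fun j => ?_
    obtain ⟨i1⟩ := hT
    obtain ⟨p0, -, h⟩ := Finset.exists_max_image (Finset.univ : Finset (T × T))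
      (fun p => mulHeight₁ (u p.1 j / u p.2 j)) ⟨(i1, i1), Finset.mem_univ _⟩
    exact ⟨p0, fun p => h p (Finset.mem_univ p)⟩
  rw [Ultrafilter.eventually_exists_iff] at hmax
  obtain ⟨p0, hp0⟩ := hmax
  obtain ⟨X', hX'⟩ : ∃ X' : ℕ → ℝ, X' = fun j => mulHeight₁ (u p0.1 j / u p0.2 j) := ⟨_, rfl⟩
  have hle : ∀ᶠ j in (φ : Filter ℕ), ∀ i i' : T, mulHeight₁ (u i j / u i' j) ≤ X' j := by
    filter_upwards [hp0] with j hj i i'
    rw [hX']
    exact hj (i, i')
  obtain ⟨i, i', hii⟩ := exists_pair_ne T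
  obtain ⟨ε, hε, hεX⟩ := not_slw hHSL hS hX (hrat i i' hii)
  have hεX' : ∀ᶠ j in (φ : Filter ℕ), X j ^ ε ≤ X' j := by
    filter_upwards [hεX, hle] with j h1 h2
    exact h1.le.trans (h2 i i')
  have hX'inf : Tendsto X' (φ : Filter ℕ) atTop :=
    tendsto_atTop_mono' _ hεX' ((tendsto_rpow_atTop hε).comp hX)
  have hXX' : ∀ᶠ j in (φ : Filter ℕ), X j ≤ X' j ^ (1 / ε) := by
    filter_upwards [hεX', hX.eventually_ge_atTop 0] with j h1 h2
    calc X j = (X j ^ ε) ^ (1 / ε) := by
          rw [← Real.rpow_mul h2, mul_one_div_cancel hε.ne', Real.rpow_one]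
      _ ≤ X' j ^ (1 / ε) := Real.rpow_le_rpow (Real.rpow_nonneg h2 _) h1 (by positivity)
  have hSL := hSLW M S P φ X hS hX
  obtain ⟨-, -, -, -, -, -, -, -, -, -, -, -, s13⟩ := hSL
  have hcX' : ∀ i, Slw P φ X' (c i) := fun i =>
    (s13 X' (1 / ε) (by positivity) hX'inf hXX').1 _ (hc i)
  obtain ⟨t1, t2, t3, -, -, -, t7, -, -, -, t11, -⟩ := hSLW M S P φ X' hS hX'inf
  have hp0n : ¬ Slw P φ X' (fun j => u p0.1 j / u p0.2 j) := by
    refine not_slw_self hHSL hS hX'inf (Filter.Eventually.of_forall fun j => ?_)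
    rw [hX']
  -- the equivalence relation
  have hrefl : ∀ i, Slw P φ X' (fun j => u i j / u i j) := by
    intro i
    refine t7 _ _ ?_ (t1 1)
    filter_upwards [hune] with j hj
    rw [div_self (hj i)]
  have hsymm : ∀ i i', Slw P φ X' (fun j => u i j / u i' j) →
      Slw P φ X' (fun j => u i' j / u i j) := by
    intro i i' h
    have h1 := t3 _ h
    simpa only [inv_div] using h1
  have htrans : ∀ i i' i'', Slw P φ X' (fun j => u i j / u i' j) →
      Slw P φ X' (fun j => u i' j / u i'' j) → Slw P φ X' (fun j => u i j / u i'' j) := by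
    intro i i' i'' h h'
    refine t7 _ _ ?_ (t2 _ _ h h').2
    filter_upwards [hune] with j hj
    rw [div_mul_div_cancel₀ (hj i')]
  let st : Setoid T :=
    { r := fun i i' => Slw P φ X' (fun j => u i j / u i' j)
      iseqv := ⟨hrefl, fun {i i'} h => hsymm i i' h, fun {i i' i''} h h' => htrans i i' i'' h h'⟩ }
  have hst : ∀ i i' : T, (Quotient.mk st i = Quotient.mk st i') →
      Slw P φ X' (fun j => u i j / u i' j) := fun i i' h => Quotient.exact h
  obtain ⟨ou, hou⟩ : ∃ ou : Quotient st → T, ∀ q, Quotient.mk st (ou q) = q :=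
    ⟨Quotient.out, fun q => Quotient.out_eq q⟩
  obtain ⟨c', hc'⟩ : ∃ c' : Quotient st → ℕ → M, c' = fun q j =>
      ∑ i, if Quotient.mk st i = q then c i j * (u i j / u (ou q) j) else 0 := ⟨_, rfl⟩
  have hc's : ∀ q, Slw P φ X' (c' q) := by
    intro q
    rw [hc']
    refine (t11 T Finset.univ (fun i j =>
      if Quotient.mk st i = q then c i j * (u i j / u (ou q) j) else 0) fun i _ => ?_).1
    by_cases h : Quotient.mk st i = q
    · simp only [h, if_true]
      exact (t2 _ _ (hcX' i) (hst i (ou q) (by rw [hou, h]))).2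
    · simp only [h, if_false]
      exact t1 0
  have hsum : ∀ᶠ j in (φ : Filter ℕ), ∀ q, c' q j * u (ou q) j =
      ∑ i, if Quotient.mk st i = q then c i j * u i j else 0 := by
    filter_upwards [hune] with j hj q
    rw [hc', Finset.sum_mul]
    refine Finset.sum_congr rfl fun i _ => ?_
    by_cases h : Quotient.mk st i = q
    · simp only [h, if_true]
      rw [mul_assoc, div_mul_cancel₀ _ (hj _)]
    · simp only [h, if_false, zero_mul]
  have htot : ∀ᶠ j in (φ : Filter ℕ), ∑ q, c' q j * u (ou q) j = 0 := by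
    filter_upwards [hsum, hcon] with j h1 h2
    rw [Finset.sum_congr rfl fun q _ => h1 q, Finset.sum_comm]
    refine Eq.trans (Finset.sum_congr rfl fun i _ => ?_) h2
    rw [Finset.sum_ite_eq, if_pos (Finset.mem_univ _)]
  obtain ⟨i1⟩ := hT
  by_cases hall : ∀ q, ∀ᶠ j in (φ : Filter ℕ), c' q j ≠ 0
  · have hmu : ∀ q, MU P φ X' (fun j => u (ou q) j / u i1 j) := by
      intro q
      refine ⟨?_, 1, one_pos, ?_⟩
      · filter_upwards [hu'] with j hj
        rw [div_eq_mul_inv]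
        exact svm _ _ _ (hj _) (svi _ _ (hj _))
      · filter_upwards [hle] with j hj v hv σ
        rw [Real.rpow_one]
        exact (hHBM M S P hS _ v hv σ).trans (hj _ _)
    obtain ⟨q, q', hqq, hsl⟩ := hRELW M S P φ X' (Quotient st) c'
      (fun q j => u (ou q) j / u i1 j) hS ⟨Quotient.mk st i1⟩ hX'inf hc's hall hmu (by
        filter_upwards [htot, hune] with j h1 h2
        have h3 : ∑ q, c' q j * (u (ou q) j / u i1 j) = (∑ q, c' q j * u (ou q) j) / u i1 j := by
          rw [Finset.sum_div]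
          exact Finset.sum_congr rfl fun q _ => by rw [mul_div_assoc]
        rw [h3, h1, zero_div])
    apply hqq
    have h1 : Slw P φ X' (fun j => u (ou q) j / u (ou q') j) := by
      refine t7 _ _ ?_ hsl
      filter_upwards [hune] with j hj
      rw [div_div_div_cancel_right₀ (hj i1)]
    have h2 : Quotient.mk st (ou q) = Quotient.mk st (ou q') := Quotient.sound h1
    rwa [hou, hou] at h2
  · push Not at hall
    obtain ⟨q, hq⟩ := hall
    have hlt : Fintype.card {i : T // Quotient.mk st i = q} < N := by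
      rw [← hN]
      have h1 : ∃ i, Quotient.mk st i ≠ q := by
        by_contra h
        push Not at h
        apply hp0n
        exact hst p0.1 p0.2 (by rw [h, h])
      obtain ⟨i2, hi2⟩ := h1
      exact Fintype.card_subtype_lt hi2
    have h1 := ih _ hlt {i : T // Quotient.mk st i = q} (fun i => c i.1) (fun i => u i.1) rfl
      ⟨⟨ou q, hou q⟩⟩ (fun i => hc i.1) (fun i => hc0 i.1) (fun i => hu i.1)
      (fun i i' h => hrat i.1 i'.1 (fun h' => h (Subtype.ext h')))
    obtain ⟨j, ⟨hj1, hj2⟩, hj3⟩ := ((h1.and hq).and hsum).exists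
    apply hj1
    have h2 := hj3 q
    rw [hj2, zero_mul] at h2
    rw [h2, ← Finset.sum_filter]
    exact (Finset.sum_subtype (univ.filter fun i => Quotient.mk st i = q) (fun i => by simp)
      (fun i : T => c i j * u i j)).symm

theorem st_INDK (hSLW : ST_SLW) (hSVB : ST_SVB) (hHSL : ST_HSL) (hHBM : ST_HBM)
    (hRELW : ST_RELW) : ST_INDK := by
  intro M _ _ _ S P φ X T _ _ c u hS hX hT hc hc0 hu hrat
  exact indK_aux hSLW hSVB hHSL hHBM hRELW hS hX _ T c u rfl hT hc hc0 hu hrat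

end

end Pool.Agent.Helper9.MTK
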