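import Pool.Agent.Helper9.MTK.Germ

/-!
Project T3K: the main theorem along an ultrafilter.
-/

set_option autoImplicit false

namespace Pool.Agent.Helper9.MTK

open Finset Filter Polynomial Pool.Agent.Helper70.SUB Pool.Agent.Helper77.SUBK
  Pool.Agent.Helper70.SUBW Height
open Pool.Agent.Helper66.SUBK (evR evR_apply evM_smul evM_single)

section

variable {M : Type} [Field M] [NumberField M] [IsGalois ℚ M] {S : Finset ℕ} {P : PF S M}
  {φ : Ultrafilter ℕ} {X : ℕ → ℝ}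

/-- sums as values of Laurent polynomials with slow coefficients -/
theorem lauK (hSLW : ST_SLW) (hS : ∀ p ∈ S, p.Prime)
    (hX : Tendsto X (φ : Filter ℕ) atTop) {ι : Type} {r : ℕ} (u : ι → ℕ → M)
    (w : Fin r → ℕ → M) (m : ι → Fin r → ℤ) (s : ι → ℕ → M)
    (hw : ∀ k, gm φ (w k) ≠ 0)
    (hs : ∀ i, Slw P φ X (s i))
    (hu : ∀ i, ∀ᶠ j in (φ : Filter ℕ), u i j = s i j * monM (fun k => w k j) (m i))
    {t : ℕ} (c : Fin t → ℕ → M) (hc : ∀ i, Slw P φ X (c i)) (e : Fin t → ι) :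
    ∃ L : LauM (UP M φ) r, SlL P φ X L ∧
      evW w L = gm φ (fun j => ∑ i, c i j * u (e i) j) := by
  refine ⟨∑ i, AddMonoidAlgebra.single (m (e i)) (gm φ (fun j => c i j * s (e i) j)), ?_, ?_⟩
  · refine Helper47.SUBW.slL_sum hSLW hS hX _ _ fun i _ => ?_
    refine Helper47.SUBW.slL_single hSLW hS hX _ ⟨_, ?_, rfl⟩
    exact ((hSLW M S P φ X hS hX).2.1 _ _ (hc i) (hs (e i))).2
  · have hE : ∀ H : LauM (UP M φ) r, evW w H = evR (fun k => gm φ (w k)) hw H := fun H => rfl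
    rw [hE, map_sum, Helper53.SUBW.gm_sum]
    refine Finset.sum_congr rfl fun i _ => ?_
    rw [evR_apply, evM_single, ← Helper53.SUBW.gm_monM]
    refine (Helper53.SUBW.gm_iff φ (z := fun j => c i j * s (e i) j *
      monM (fun k => w k j) (m (e i))) (z' := fun j => c i j * u (e i) j)).2 ?_
    filter_upwards [hu (e i)] with j hj
    rw [hj, mul_assoc]

theorem slL_smul (hSLW : ST_SLW) (hS : ∀ p ∈ S, p.Prime)
    (hX : Tendsto X (φ : Filter ℕ) atTop) {r : ℕ} {L : LauM (UP M φ) r} (hL : SlL P φ X L)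
    {g : UP M φ} (hg : SlG P φ X g) : SlL P φ X (g • L) := by
  intro m
  rw [AddMonoidAlgebra.coeff_smul, Finsupp.smul_apply, smul_eq_mul]
  exact Helper47.SUBW.slG_mul hSLW hS hX hg (hL m)

omit [NumberField M] [IsGalois ℚ M] in
theorem mainK_id {F : M[X]} {d : ℕ} (hF : F.natDegree = d) {a b n t : M} (hb : b ≠ 0)
    (ht : t ≠ 0) (h : (n / t) ^ 2 = F.eval (a / b)) :
    n ^ 2 * b ^ d - t ^ 2 * ∑ i ∈ range (d + 1), F.coeff i * (a ^ i * b ^ (d - i)) = 0 := by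
  rw [eval_eq_sum_range' (n := d + 1) (by omega)] at h
  have h1 : (∑ i ∈ range (d + 1), F.coeff i * (a / b) ^ i) * b ^ d =
      ∑ i ∈ range (d + 1), F.coeff i * (a ^ i * b ^ (d - i)) := by
    rw [Finset.sum_mul]
    refine Finset.sum_congr rfl fun i hi => ?_
    have h2 : i ≤ d := by
      have := Finset.mem_range.1 hi
      omega
    have h3 : b ^ d = b ^ i * b ^ (d - i) := by
      rw [← pow_add]
      congr 1
      omega
    rw [h3, div_pow]
    field_simp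
  rw [← h1, ← h, div_pow]
  field_simp
  ring

theorem mainK (hSLW : ST_SLW) (hSVB : ST_SVB) (hINDK : ST_INDK) (hGEOL : ST_GEOL)
    (hS : ∀ p ∈ S, p.Prime) (hX : Tendsto X (φ : Filter ℕ) atTop) (d : ℕ) (hd : 5 ≤ d)
    (F : ℕ → M[X]) (a b n t : ℕ → M)
    (hFd : ∀ᶠ j in (φ : Filter ℕ), (F j).natDegree = d)
    (hFs : ∀ᶠ j in (φ : Filter ℕ), (F j).Separable)
    (hFc : ∀ i : ℕ, Slw P φ X (fun j => (F j).coeff i))
    (ha : Spa P φ X a) (hb : Spa P φ X b) (hn : Spa P φ X n) (ht : Spa P φ X t)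
    (hb0 : ∀ᶠ j in (φ : Filter ℕ), b j ≠ 0) (ht0 : ∀ᶠ j in (φ : Filter ℕ), t j ≠ 0)
    (hxy : ∀ᶠ j in (φ : Filter ℕ), (n j / t j) ^ 2 = (F j).eval (a j / b j)) :
    Slw P φ X (fun j => a j / b j) := by
  classical
  obtain ⟨t1, c1, u1, hc1, hu1, hs1⟩ := ha
  obtain ⟨t2, c2, u2, hc2, hu2, hs2⟩ := hb
  obtain ⟨t3, c3, u3, hc3, hu3, hs3⟩ := hn
  obtain ⟨t4, c4, u4, hc4, hu4, hs4⟩ := ht
  obtain ⟨r, w, m, s, hw, hI, hs, hus⟩ := monK hSLW hSVB hS hX
    (Sum.elim (Sum.elim u1 u2) (Sum.elim u3 u4)) (by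
      rintro ((i | i) | (i | i))
      · exact hu1 i
      · exact hu2 i
      · exact hu3 i
      · exact hu4 i)
  have hwne : ∀ k, gm φ (w k) ≠ 0 := fun k =>
    Helper66.SUBW.gm_ne ((hw k).mono fun j hj => hj.1)
  obtain ⟨A, hA, hAe⟩ := lauK hSLW hS hX _ w m s hwne hs hus c1 hc1 (fun i => .inl (.inl i))
  obtain ⟨B, hB, hBe⟩ := lauK hSLW hS hX _ w m s hwne hs hus c2 hc2 (fun i => .inl (.inr i))
  obtain ⟨N, hN, hNe⟩ := lauK hSLW hS hX _ w m s hwne hs hus c3 hc3 (fun i => .inr (.inl i))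
  obtain ⟨T, hT, hTe⟩ := lauK hSLW hS hX _ w m s hwne hs hus c4 hc4 (fun i => .inr (.inr i))
  have hAe' : evW w A = gm φ a := hAe.trans ((Helper53.SUBW.gm_iff φ).2 hs1)
  have hBe' : evW w B = gm φ b := hBe.trans ((Helper53.SUBW.gm_iff φ).2 hs2)
  have hNe' : evW w N = gm φ n := hNe.trans ((Helper53.SUBW.gm_iff φ).2 hs3)
  have hTe' : evW w T = gm φ t := hTe.trans ((Helper53.SUBW.gm_iff φ).2 hs4)
  obtain ⟨G, hG⟩ := GP.exists (φ := φ) (f := F) (n := d + 1) (hFd.mono fun j hj => by omega)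
  have hGs : G.Separable := hG.sep (by omega) hFd hFs
  have hGd : G.natDegree = d := hG.natDegree (by omega) hFd
  have hE : ∀ H : LauM (UP M φ) r, evW w H = evR (fun k => gm φ (w k)) hwne H := fun H => rfl
  obtain ⟨D, hD⟩ : ∃ D : LauM (UP M φ) r, D = N ^ 2 * B ^ d -
    T ^ 2 * ∑ i ∈ range (d + 1), G.coeff i • (A ^ i * B ^ (d - i)) := ⟨_, rfl⟩
  have hDs : SlL P φ X D := by
    rw [hD]
    refine Helper47.SUBW.slL_sub hSLW hS hX (Helper47.SUBW.slL_mul hSLW hS hX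
      (Helper47.SUBW.slL_pow hSLW hS hX hN _) (Helper47.SUBW.slL_pow hSLW hS hX hB _))
      (Helper47.SUBW.slL_mul hSLW hS hX (Helper47.SUBW.slL_pow hSLW hS hX hT _)
        (Helper47.SUBW.slL_sum hSLW hS hX _ _ fun i _ => slL_smul hSLW hS hX
          (Helper47.SUBW.slL_mul hSLW hS hX (Helper47.SUBW.slL_pow hSLW hS hX hA _)
            (Helper47.SUBW.slL_pow hSLW hS hX hB _)) ⟨_, hFc i, (hG i).symm⟩))
  have hDe : evW w D = 0 := by
    have h1 : evW w D = gm φ (fun j => n j ^ 2 * b j ^ d - t j ^ 2 *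
        ∑ i ∈ range (d + 1), (F j).coeff i * (a j ^ i * b j ^ (d - i))) := by
      rw [hE, hD, map_sub, map_mul, map_mul, map_pow, map_pow, map_pow, map_sum, ← hE, ← hE,
        ← hE, hBe', hNe', hTe']
      have h2 : ∀ i ∈ range (d + 1), evR (fun k => gm φ (w k)) hwne
          (G.coeff i • (A ^ i * B ^ (d - i))) =
          gm φ (fun j => (F j).coeff i * (a j ^ i * b j ^ (d - i))) := by
        intro i _
        rw [evR_apply, evM_smul, ← evR_apply _ hwne, map_mul, map_pow, map_pow, ← hE, ← hE,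
          hAe', hBe', hG i]
        rfl
      rw [Finset.sum_congr rfl h2, ← Helper53.SUBW.gm_sum]
      rfl
    rw [h1]
    refine (Helper53.SUBW.gm_iff φ (z' := fun _ => (0 : M))).2 ?_
    filter_upwards [hFd, hb0, ht0, hxy] with j h2 h3 h4 h5
    exact mainK_id h2 h3 h4 h5
  have hD0 := evW_inj hSLW hSVB hINDK hS hX w hw hI D hDs hDe
  have hcz : CharZero (UP M φ) := Helper47.SUBW.charZero_UP φ
  have hB0 : B ≠ 0 := by
    rintro rfl
    rw [hE, map_zero] at hBe'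
    exact Helper66.SUBW.gm_ne hb0 hBe'.symm
  have hT0 : T ≠ 0 := by
    rintro rfl
    rw [hE, map_zero] at hTe'
    exact Helper66.SUBW.gm_ne ht0 hTe'.symm
  rw [hD, sub_eq_zero] at hD0
  obtain ⟨c, hc⟩ := hGEOL (UP M φ) d G r A B N T hd hGd hGs hB0 hT0 hD0
  have hcs : SlG P φ X c := by
    have hne : B.coeff ≠ 0 := fun h => hB0 (AddMonoidAlgebra.coeff_eq_zero.mp h)
    obtain ⟨m0, hm0⟩ := Finsupp.support_nonempty_iff.mpr hne
    have h1 : B.coeff m0 ≠ 0 := Finsupp.mem_support_iff.mp hm0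
    have h2 : A.coeff m0 = c * B.coeff m0 := by
      rw [hc, AddMonoidAlgebra.coeff_smul, Finsupp.smul_apply, smul_eq_mul]
    have h3 : c = A.coeff m0 / B.coeff m0 := by
      rw [h2, mul_div_assoc, div_self h1, mul_one]
    rw [h3]
    exact Helper47.SUBW.slG_div hSLW hS hX (hA m0) (hB m0)
  refine Helper47.SUBW.slw_of_slG hSLW hS hX hcs ?_
  have h1 : gm φ a = c * gm φ b := by
    rw [← hAe', ← hBe', hc]
    exact evM_smul _ _ _
  have h2 : gm φ (fun j => a j / b j) = gm φ a / gm φ b := rfl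
  rw [h2, h1, mul_div_assoc, div_self (Helper66.SUBW.gm_ne hb0), mul_one]

end

end Pool.Agent.Helper9.MTK
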