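import Pool.Agent.Helper70.SUB.SheetW

/-!
Project T3K (MP_2a8cc2_nt): points whose coordinates are quotients of sums of boundedly many
elements of a finitely generated group, over number fields. Row statements.
-/

set_option autoImplicit false

namespace Pool.Agent.Helper9.MTK

open Finset Filter Polynomial Pool.Agent.Helper70.SUB Pool.Agent.Helper77.SUBK
  Pool.Agent.Helper70.SUBW Height

/-- (HSL) slow sequences in terms of heights -/
def ST_HSL : Prop := ∀ (M : Type) [Field M] [NumberField M] [IsGalois ℚ M] (S : Finset ℕ)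
  (P : PF S M) (φ : Ultrafilter ℕ) (X : ℕ → ℝ), (∀ p ∈ S, p.Prime) →
  Tendsto X (φ : Filter ℕ) atTop → ∀ z : ℕ → M,
  (Slw P φ X z ↔ ∀ ε : ℝ, 0 < ε → ∀ᶠ j in (φ : Filter ℕ), mulHeight₁ (z j) ≤ X j ^ ε)

/-- (HC) heights in different fields are comparable up to powers -/
def ST_HC : Prop := ∀ (K M : Type) [Field K] [NumberField K] [Field M] [NumberField M]
  (f : K →+* M), ∃ A : ℕ, 1 ≤ A ∧ ∀ a : K,
    mulHeight₁ (f a) ≤ mulHeight₁ a ^ A ∧ mulHeight₁ a ≤ mulHeight₁ (f a) ^ A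

/-- (INDK) moving targets: sums of slow multiples of S-units with non slow quotients; no bound
for the size of the S-units -/
def ST_INDK : Prop := ∀ (M : Type) [Field M] [NumberField M] [IsGalois ℚ M] (S : Finset ℕ)
  (P : PF S M) (φ : Ultrafilter ℕ) (X : ℕ → ℝ) (T : Type) [Fintype T] [DecidableEq T]
  (c u : T → ℕ → M), (∀ p ∈ S, p.Prime) → Tendsto X (φ : Filter ℕ) atTop → Nonempty T →
  (∀ i, Slw P φ X (c i)) → (∀ i, ∀ᶠ j in (φ : Filter ℕ), c i j ≠ 0) →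
  (∀ i, ∀ᶠ j in (φ : Filter ℕ), SV S (u i j)) →
  (∀ i i', i ≠ i' → ¬ Slw P φ X (fun j => u i j / u i' j)) →
  ∀ᶠ j in (φ : Filter ℕ), ∑ i, c i j * u i j ≠ 0

/-- (GEO) a curve `y ^ 2 = F x` with constant coefficients has no nonconstant rational
parametrisation -/
def ST_GEO : Prop := ∀ (M : Type) [Field M] [CharZero M] (d : ℕ) (F p q n m : M[X]),
  5 ≤ d → F.natDegree = d → F.Separable → q ≠ 0 → m ≠ 0 →
  n ^ 2 * q ^ d = m ^ 2 * ∑ i ∈ range (d + 1), C (F.coeff i) * p ^ i * q ^ (d - i) →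
  ∃ c : M, p = C c * q

/-- (GEOL) the same for Laurent polynomials in several variables -/
def ST_GEOL : Prop := ∀ (M : Type) [Field M] [CharZero M] (d : ℕ) (F : M[X]) (r : ℕ)
  (P Q N T : LauM M r), 5 ≤ d → F.natDegree = d → F.Separable → Q ≠ 0 → T ≠ 0 →
  N ^ 2 * Q ^ d = T ^ 2 * ∑ i ∈ range (d + 1), F.coeff i • (P ^ i * Q ^ (d - i)) →
  ∃ c : M, P = c • Q

/-- sums of at most `t` products of an element of logarithmic height at most `B` and an element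
of `Γ` -/
def Sp {K : Type} [Field K] (h : K → ℝ) (Γ : Subgroup Kˣ) (t : ℕ) (B : ℝ) (a : K) : Prop :=
  ∃ (c : Fin t → K) (γ : Fin t → Kˣ), (∀ i, h (c i) ≤ B) ∧ (∀ i, γ i ∈ Γ) ∧
    a = ∑ i, c i * (γ i : K)

/-- quotients of two such sums -/
def SpQ {K : Type} [Field K] (h : K → ℝ) (Γ : Subgroup Kˣ) (t : ℕ) (B : ℝ) (x : K) : Prop :=
  ∃ a b : K, b ≠ 0 ∧ Sp h Γ t B a ∧ Sp h Γ t B b ∧ x = a / b

/-- (T3K) the result -/
def ST_T3K : Prop := ∀ (K : Type) [Field K] [NumberField K] (h : K → ℝ),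
  (∀ a : K, h a =
    ((∑ w : NumberField.InfinitePlace K, (w.mult : ℝ) * Real.log (max 1 (w a))) +
      ∑ᶠ v : NumberField.FinitePlace K, Real.log (max 1 (v a))) /
      (Module.finrank ℚ K : ℝ)) →
  ∀ (Γ : Subgroup Kˣ) (t d : ℕ) (κ : ℝ), Γ.FG → 5 ≤ d →
  ∃ C₁ C₂ : ℝ, 0 < C₁ ∧ 0 < C₂ ∧ ∀ F : K[X], F.natDegree = d → F.Separable →
    ∀ x y : K, y ^ 2 = F.eval x → ∀ H : ℝ, (∀ i : ℕ, h (F.coeff i) ≤ H) →
      SpQ h Γ t (κ * (H + 1)) x → SpQ h Γ t (κ * (H + 1)) y → h x ≤ C₁ * H + C₂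

end Pool.Agent.Helper9.MTK
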