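import Pool.Agent.Helper9.MTK.Sheet
import Pool.Agent.Helper53.SUBW.Rep
import Pool.Agent.Helper47.SUBW.SLL
import Pool.Agent.Helper66.SUBW.COREW
import Pool.Agent.Helper96.SUBW.MONW

/-!
Project T3K: polynomials over the ultrapower, separability; independence in the form of
injectivity; monomials.
-/

set_option autoImplicit false

namespace Pool.Agent.Helper9.MTK

open Finset Filter Polynomial Pool.Agent.Helper70.SUB Pool.Agent.Helper77.SUBK
  Pool.Agent.Helper70.SUBW Height

section Poly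

variable {M : Type} [Field M] (φ : Ultrafilter ℕ)

/-- the polynomial over the ultrapower has the germs of the coefficients as coefficients -/
def GP (f : ℕ → M[X]) (g : (UP M φ)[X]) : Prop :=
  ∀ k : ℕ, g.coeff k = gm φ (fun j => (f j).coeff k)

variable {φ}

theorem GP.add {f f' : ℕ → M[X]} {g g' : (UP M φ)[X]} (h : GP φ f g) (h' : GP φ f' g') :
    GP φ (fun j => f j + f' j) (g + g') := by
  intro k
  rw [coeff_add, h k, h' k]
  simp only [coeff_add]
  rfl

theorem GP.mul {f f' : ℕ → M[X]} {g g' : (UP M φ)[X]} (h : GP φ f g) (h' : GP φ f' g') :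
    GP φ (fun j => f j * f' j) (g * g') := by
  intro k
  rw [coeff_mul]
  simp only [coeff_mul]
  rw [Helper53.SUBW.gm_sum]
  refine Finset.sum_congr rfl fun p _ => ?_
  rw [h, h']
  rfl

theorem GP.deriv {f : ℕ → M[X]} {g : (UP M φ)[X]} (h : GP φ f g) :
    GP φ (fun j => derivative (f j)) (derivative g) := by
  intro k
  rw [coeff_derivative, h]
  simp only [coeff_derivative]
  rfl

theorem GP.one : GP φ (fun _ => (1 : M[X])) (1 : (UP M φ)[X]) := by
  intro k
  rw [coeff_one]
  simp only [coeff_one]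
  split_ifs
  · rfl
  · rfl

theorem GP.eq {f f' : ℕ → M[X]} {g g' : (UP M φ)[X]} (h : GP φ f g) (h' : GP φ f' g')
    (hf : ∀ᶠ j in (φ : Filter ℕ), f j = f' j) : g = g' := by
  ext k
  rw [h, h', Helper53.SUBW.gm_iff]
  filter_upwards [hf] with j hj
  rw [hj]

theorem GP.exists {f : ℕ → M[X]} {n : ℕ} (hn : ∀ᶠ j in (φ : Filter ℕ), (f j).natDegree < n) :
    ∃ g : (UP M φ)[X], GP φ f g := by
  refine ⟨∑ i ∈ range n, monomial i (gm φ (fun j => (f j).coeff i)), fun k => ?_⟩
  rw [finsetSum_coeff]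
  simp only [coeff_monomial]
  rw [Finset.sum_ite_eq']
  split_ifs with h
  · rfl
  · rw [Finset.mem_range, not_lt] at h
    refine (Helper53.SUBW.gm_iff φ (z := fun _ => (0 : M))
      (z' := fun j => (f j).coeff k)).2 ?_
    filter_upwards [hn] with j hj
    exact (coeff_eq_zero_of_natDegree_lt (hj.trans_le h)).symm

/-- Bezout identity with bounded degrees -/
theorem bez {F : M[X]} {d : ℕ} (hd : F.natDegree = d) (hd1 : 1 ≤ d) (hF : F.Separable) :
    ∃ a b : M[X], a.natDegree < 2 * d + 1 ∧ b.natDegree < 2 * d + 1 ∧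
      a * F + b * derivative F = 1 := by
  obtain ⟨a, b, hab⟩ := hF
  have hF0 : F ≠ 0 := by
    rintro rfl
    simp at hd
    omega
  have h1 : (a + b / F * derivative F) * F + (b % F) * derivative F = 1 := by
    have h2 := EuclideanDomain.div_add_mod b F
    calc (a + b / F * derivative F) * F + (b % F) * derivative F
        = a * F + (F * (b / F) + b % F) * derivative F := by ring
      _ = 1 := by rw [h2, hab]
  have h2 : (b % F).natDegree < d := by
    rw [← hd]
    exact natDegree_mod_lt b (by omega)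
  refine ⟨_, _, ?_, by omega, h1⟩
  by_cases h3 : a + b / F * derivative F = 0
  · rw [h3]
    simp
  have h4 : ((a + b / F * derivative F) * F).natDegree =
      (a + b / F * derivative F).natDegree + d := by
    rw [natDegree_mul h3 hF0, hd]
  have h5 : (a + b / F * derivative F) * F = 1 - (b % F) * derivative F := by
    rw [← h1]
    ring
  have h6 : (1 - (b % F) * derivative F).natDegree ≤ 2 * d := by
    refine (natDegree_sub_le _ _).trans ?_
    rw [natDegree_one]
    refine max_le (by omega) (natDegree_mul_le.trans ?_)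
    have h7 := natDegree_derivative_le F
    omega
  rw [h5] at h4
  omega

/-- separability passes to the ultrapower -/
theorem GP.sep {F : ℕ → M[X]} {G : (UP M φ)[X]} {d : ℕ} (h : GP φ F G) (hd1 : 1 ≤ d)
    (hd : ∀ᶠ j in (φ : Filter ℕ), (F j).natDegree = d)
    (hF : ∀ᶠ j in (φ : Filter ℕ), (F j).Separable) : G.Separable := by
  have h1 : ∀ j, ∃ a b : M[X], (F j).natDegree = d → (F j).Separable →
      a.natDegree < 2 * d + 1 ∧ b.natDegree < 2 * d + 1 ∧ a * F j + b * derivative (F j) = 1 := by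
    intro j
    by_cases h2 : (F j).natDegree = d ∧ (F j).Separable
    · obtain ⟨a, b, h3⟩ := bez h2.1 hd1 h2.2
      exact ⟨a, b, fun _ _ => h3⟩
    · exact ⟨0, 0, fun h3 h4 => absurd ⟨h3, h4⟩ h2⟩
  choose a b hab using h1
  obtain ⟨A, hA⟩ := GP.exists (φ := φ) (f := a) (n := 2 * d + 1) (by
    filter_upwards [hd, hF] with j h2 h3
    exact (hab j h2 h3).1)
  obtain ⟨B, hB⟩ := GP.exists (φ := φ) (f := b) (n := 2 * d + 1) (by
    filter_upwards [hd, hF] with j h2 h3
    exact (hab j h2 h3).2.1)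
  refine ⟨A, B, ?_⟩
  refine GP.eq ((hA.mul h).add (hB.mul h.deriv)) GP.one ?_
  filter_upwards [hd, hF] with j h2 h3
  exact (hab j h2 h3).2.2

theorem GP.natDegree {F : ℕ → M[X]} {G : (UP M φ)[X]} {d : ℕ} (h : GP φ F G) (hd1 : 1 ≤ d)
    (hd : ∀ᶠ j in (φ : Filter ℕ), (F j).natDegree = d) : G.natDegree = d := by
  refine natDegree_eq_of_le_of_coeff_ne_zero ?_ ?_
  · rw [natDegree_le_iff_coeff_eq_zero]
    intro k hk
    rw [h]
    refine (Helper53.SUBW.gm_iff φ (z := fun j => (F j).coeff k) (z' := fun _ => (0 : M))).2 ?_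
    filter_upwards [hd] with j hj
    exact coeff_eq_zero_of_natDegree_lt (by omega)
  · rw [h]
    refine Helper66.SUBW.gm_ne ?_
    filter_upwards [hd] with j hj h0
    rw [← hj, coeff_natDegree, leadingCoeff_eq_zero] at h0
    rw [h0, natDegree_zero] at hj
    omega

end Poly

section

variable {M : Type} [Field M] [NumberField M] [IsGalois ℚ M] {S : Finset ℕ} {P : PF S M}
  {φ : Ultrafilter ℕ} {X : ℕ → ℝ}

omit [NumberField M] [IsGalois ℚ M] in
theorem monM_sub {r : ℕ} {w : Fin r → M} (hw : ∀ k, w k ≠ 0) (m m' : Fin r → ℤ) :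
    monM w (m - m') = monM w m / monM w m' := by
  unfold monM
  rw [← Finset.prod_div_distrib]
  refine Finset.prod_congr rfl fun k _ => ?_
  rw [Pi.sub_apply, zpow_sub₀ (hw k)]

/-- the evaluation is injective on Laurent polynomials with slow coefficients -/
theorem evW_inj (hSLW : ST_SLW) (hSVB : ST_SVB) (hINDK : ST_INDK) (hS : ∀ p ∈ S, p.Prime)
    (hX : Tendsto X (φ : Filter ℕ) atTop) {r : ℕ} (w : Fin r → ℕ → M)
    (hw : ∀ k, ∀ᶠ j in (φ : Filter ℕ), SV S (w k j)) (hI : IndW P φ X w)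
    (D : LauM (UP M φ) r) (hD : SlL P φ X D) (h0 : evW w D = 0) : D = 0 := by
  classical
  by_contra hne
  obtain ⟨-, -, -, -, -, -, -, svz, svp, -⟩ := hSVB M
  obtain ⟨-, -, -, -, -, -, s7, -⟩ := hSLW M S P φ X hS hX
  have hw' : ∀ᶠ j in (φ : Filter ℕ), ∀ k, SV S (w k j) := Filter.eventually_all.2 hw
  have hsup : D.coeff ≠ 0 := fun h => hne (AddMonoidAlgebra.coeff_eq_zero.mp h)
  obtain ⟨m0, hm0⟩ := Finsupp.support_nonempty_iff.mpr hsup
  obtain ⟨c, hc1, hc2, hc3⟩ := Helper53.SUBW.rep w D hD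
  have h1 := hINDK M S P φ X {m // m ∈ Finsupp.support D.coeff} (fun m => c m.1)
    (fun m j => monM (fun k => w k j) m.1) hS hX ⟨⟨m0, hm0⟩⟩ (fun m => hc1 m.1)
    (by
      intro m
      rw [Ultrafilter.eventually_not]
      intro h
      apply Finsupp.mem_support_iff.1 m.2
      rw [← hc2]
      exact (Helper53.SUBW.gm_iff φ (z := c m.1) (z' := fun _ => (0 : M))).2 h)
    (by
      intro m
      filter_upwards [hw'] with j hj
      exact svp _ _ _ _ fun k _ => svz _ _ _ (hj k))
    (by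
      intro m m' hmm h
      refine hI (m.1 - m'.1) (fun h' => hmm (Subtype.ext (sub_eq_zero.1 h'))) ?_
      refine s7 _ _ ?_ h
      filter_upwards [hw'] with j hj
      exact (monM_sub (fun k => (hj k).1) m.1 m'.1).symm)
  rw [h0] at hc3
  have h2 : ∀ᶠ j in (φ : Filter ℕ), (0 : M) = ∑ m ∈ Finsupp.support D.coeff,
      c m j * monM (fun k => w k j) m :=
    (Helper53.SUBW.gm_iff φ (z := fun _ => (0 : M)) (z' := fun j => ∑ m ∈ Finsupp.support D.coeff,
      c m j * monM (fun k => w k j) m)).1 hc3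
  obtain ⟨j, hj1, hj2⟩ := (h1.and h2).exists
  apply hj1
  rw [hj2]
  exact Finset.sum_coe_sort (Finsupp.support D.coeff)
    (fun m => c m j * monM (fun k => w k j) m)

open Pool.Agent.Helper96.SUBW in
/-- S-units are monomials in independent ones, up to slow factors -/
theorem monK (hSLW : ST_SLW) (hSVB : ST_SVB) (hS : ∀ p ∈ S, p.Prime)
    (hX : Tendsto X (φ : Filter ℕ) atTop) {ι : Type} [Fintype ι] (u : ι → ℕ → M)
    (hu : ∀ i, ∀ᶠ j in (φ : Filter ℕ), SV S (u i j)) :
    ∃ (r : ℕ) (w : Fin r → ℕ → M) (m : ι → Fin r → ℤ) (s : ι → ℕ → M),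
      (∀ k, ∀ᶠ j in (φ : Filter ℕ), SV S (w k j)) ∧ IndW P φ X w ∧ (∀ i, Slw P φ X (s i)) ∧
      ∀ i, ∀ᶠ j in (φ : Filter ℕ), u i j = s i j * monM (fun k => w k j) (m i) := by
  classical
  obtain ⟨-, -, -, -, -, -, -, svz, svp, -⟩ := hSVB M
  obtain ⟨s1, s2, s3, -, -, -, s7, s8, -⟩ := hSLW M S P φ X hS hX
  have hall : ∀ᶠ j in (φ : Filter ℕ), ∀ i, SV S (u i j) := Filter.eventually_all.2 hu
  have hne : ∀ᶠ j in (φ : Filter ℕ), ∀ i, u i j ≠ 0 := hall.mono fun j hj i => (hj i).1
  have hadd : ∀ e e' : ι → ℤ, Slw P φ X (UU u e) → Slw P φ X (UU u e') →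
      Slw P φ X (UU u (e + e')) := by
    intro e e' h h'
    refine s7 _ _ ?_ (s2 _ _ h h').2
    filter_upwards [hne] with j hj
    exact (UU_add hj e e').symm
  have hneg : ∀ e : ι → ℤ, Slw P φ X (UU u e) → Slw P φ X (UU u (-e)) := by
    intro e h
    have h1 : UU u (-e) = fun j => (UU u e j)⁻¹ := funext fun j => UU_neg j e
    rw [h1]
    exact s3 _ h
  have hzero : Slw P φ X (UU u (0 : ι → ℤ)) := by
    have h1 : UU u (0 : ι → ℤ) = fun _ => (1 : M) := funext fun j => UU_zero j
    rw [h1]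
    exact s1 1
  let N : AddSubgroup (ι → ℤ) :=
    { carrier := {e | Slw P φ X (UU u e)}
      add_mem' := fun {a b} ha hb => hadd a b ha hb
      zero_mem' := hzero
      neg_mem' := fun {a} ha => hneg a ha }
  let N' : Submodule ℤ (ι → ℤ) := AddSubgroup.toIntSubmodule N
  have hN'mem : ∀ e, e ∈ N' ↔ Slw P φ X (UU u e) := fun e => Iff.rfl
  have hsat : ∀ (k : ℤ) (e : ι → ℤ), k ≠ 0 → k • e ∈ N' → e ∈ N' := by
    intro k e hk he
    have key : ∀ n : ℕ, n ≠ 0 → ((n : ℤ) • e) ∈ N' → e ∈ N' := by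
      intro n hn hne'
      rw [hN'mem] at hne' ⊢
      refine s8 _ n hn ?_
      have h1 : UU u ((n : ℤ) • e) = fun j => UU u e j ^ n := by
        funext j
        rw [UU_smul, zpow_natCast]
      rwa [← h1]
    rcases Int.natAbs_eq k with h | h
    · rw [h] at he
      exact key _ (by omega) he
    · rw [h] at he
      have h2 : ((k.natAbs : ℤ) • e) ∈ N' := by
        have h3 := N'.neg_mem he
        rwa [neg_smul, neg_neg] at h3
      exact key _ (by omega) h2
  have : Module.IsTorsionFree ℤ ((ι → ℤ) ⧸ N') := by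
    refine Module.IsTorsionFree.of_smul_eq_zero fun k x hx => ?_
    obtain ⟨e, rfl⟩ := N'.mkQ_surjective x
    by_cases hk : k = 0
    · exact Or.inl hk
    · refine Or.inr ?_
      rw [← map_smul] at hx
      have h1 : k • e ∈ N' := (Submodule.Quotient.mk_eq_zero N').mp hx
      exact (Submodule.Quotient.mk_eq_zero N').mpr (hsat k e hk h1)
  have : Module.Free ℤ ((ι → ℤ) ⧸ N') := Module.free_of_finite_type_torsion_free'
  let b := Module.finBasis ℤ ((ι → ℤ) ⧸ N')
  choose f hf using fun k => N'.mkQ_surjective (b k)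
  have hSVe : ∀ e : ι → ℤ, ∀ᶠ j in (φ : Filter ℕ), SV S (UU u e j) := by
    intro e
    filter_upwards [hall] with j hj
    exact svp _ _ _ _ fun k _ => svz _ _ _ (hj k)
  have hlin : ∀ (l : Fin (Module.finrank ℤ ((ι → ℤ) ⧸ N')) → ℤ),
      N'.mkQ (∑ k, l k • f k) = ∑ k, l k • b k := by
    intro l
    rw [map_sum]
    refine Finset.sum_congr rfl fun k _ => ?_
    rw [map_smul, hf]
  refine ⟨Module.finrank ℤ ((ι → ℤ) ⧸ N'), fun k => UU u (f k),
    fun i => fun k => b.repr (N'.mkQ (Pi.single i 1)) k,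
    fun i => UU u (Pi.single i 1 - ∑ k, b.repr (N'.mkQ (Pi.single i 1)) k • f k),
    fun k => hSVe _, ?_, ?_, ?_⟩
  · intro l hl hslow
    apply hl
    have h1 : (∑ k, l k • f k) ∈ N' := by
      rw [hN'mem]
      refine s7 _ _ ?_ hslow
      filter_upwards [hne] with j hj
      exact (UU_sum hj f l).symm
    have h2 : ∑ k, l k • b k = 0 := by
      rw [← hlin l]
      exact (Submodule.Quotient.mk_eq_zero N').mpr h1
    have h3 := Fintype.linearIndependent_iff.mp b.linearIndependent l h2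
    funext k
    exact h3 k
  · intro i
    rw [← hN'mem, ← Submodule.Quotient.mk_eq_zero]
    show N'.mkQ _ = 0
    rw [map_sub, hlin, sub_eq_zero]
    exact (b.sum_repr _).symm
  · intro i
    filter_upwards [hne] with j hj
    have h1 := UU_add hj (Pi.single i 1 - ∑ k, b.repr (N'.mkQ (Pi.single i 1)) k • f k)
      (∑ k, b.repr (N'.mkQ (Pi.single i 1)) k • f k)
    rw [sub_add_cancel, UU_single, UU_sum hj] at h1
    exact h1

end

end Pool.Agent.Helper9.MTK
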